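import Pool.Agent.Helper48.OD.St

/-! Project OD (MP_b3ce06_al), module SEX: a system over a ring with an idempotent which decouples. -/

set_option autoImplicit false

namespace Pool.Agent.Helper70.OD

open Pool.Agent.Helper43.GD Pool.Agent.Helper48.OD

/-- Two sets of generators which commute generate commuting subgroups. -/
private theorem clcomm {A : Type} [Group A] {S T : Set A} (h : ∀ s ∈ S, ∀ t ∈ T, s * t = t * s) :
    ∀ g ∈ Subgroup.closure S, ∀ k ∈ Subgroup.closure T, g * k = k * g := by
  intro g hg k hk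
  have h1 : ∀ s ∈ S, ∀ k ∈ Subgroup.closure T, s * k = k * s := by
    intro s hs k hk
    have hle : Subgroup.closure T ≤ Subgroup.centralizer {s} := by
      rw [Subgroup.closure_le]
      intro t ht
      rw [SetLike.mem_coe, Subgroup.mem_centralizer_iff]
      intro y hy
      rw [Set.mem_singleton_iff.1 hy]
      exact h s hs t ht
    exact (Subgroup.mem_centralizer_iff.1 (hle hk)) s rfl
  have hle : Subgroup.closure S ≤ Subgroup.centralizer {k} := by
    rw [Subgroup.closure_le]
    intro s hs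
    rw [SetLike.mem_coe, Subgroup.mem_centralizer_iff]
    intro y hy
    rw [Set.mem_singleton_iff.1 hy]
    exact (h1 s hs k hk).symm
  exact ((Subgroup.mem_centralizer_iff.1 (hle hg)) k rfl).symm

theorem hSEX (hSDX : StSDX) : StSEX := by
  intro L A _ _ s x ε hw1 hwx hε hF1 hF2 c1 c2
  have e1 : (1 : L) - (1 - ε) = ε := by ring
  have hF2' : FinP (L ⧸ Ideal.span {1 - (1 - ε)}) (qx (Ideal.span {1 - (1 - ε)}) x) := by
    rw [e1]
    exact hF2
  have f1 := hSDX L A s x ε hw1 hwx hε hF1 c1 c2
  have f2 := hSDX L A s x (1 - ε) hw1 hwx (by linear_combination hε) hF2'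
    (by rw [e1]; exact c2) (by rw [e1]; exact c1)
  have hc := clcomm (A := A)
    (S := Set.range (fun a => s.E (ε * a)) ∪ Set.range (fun a => s.F (ε * a)))
    (T := Set.range (fun a => s.E ((1 - ε) * a)) ∪ Set.range (fun a => s.F ((1 - ε) * a)))
    (by
      rintro g (⟨a, rfl⟩ | ⟨a, rfl⟩) u (⟨b, rfl⟩ | ⟨b, rfl⟩)
      · exact s.E_comm _ _
      · exact c1 a b
      · exact (c2 b a).symm
      · exact s.F_comm _ _)
  set G1 := Subgroup.closure
    (Set.range (fun a => s.E (ε * a)) ∪ Set.range (fun a => s.F (ε * a))) with hG1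
  set G2 := Subgroup.closure
    (Set.range (fun a => s.E ((1 - ε) * a)) ∪ Set.range (fun a => s.F ((1 - ε) * a))) with hG2
  let φ : G1 × G2 →* A := MonoidHom.noncommCoprod G1.subtype G2.subtype
    (fun g k => hc g.1 g.2 k.1 k.2)
  have hφ : ∀ g ∈ G1, ∀ k ∈ G2, g * k ∈ φ.range := by
    intro g hg k hk
    exact ⟨(⟨g, hg⟩, ⟨k, hk⟩), rfl⟩
  have hle : s.gp ≤ φ.range := by
    unfold Sys.gp
    rw [Subgroup.closure_le]
    rintro g (⟨a, rfl⟩ | ⟨a, rfl⟩)
    · have h : s.E a = s.E (ε * a) * s.E ((1 - ε) * a) := by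
        rw [← s.Eadd]
        congr 1
        ring
      rw [SetLike.mem_coe, h]
      exact hφ _ (Subgroup.subset_closure (Or.inl ⟨a, rfl⟩)) _
        (Subgroup.subset_closure (Or.inl ⟨a, rfl⟩))
    · have h : s.F a = s.F (ε * a) * s.F ((1 - ε) * a) := by
        rw [← s.Fadd]
        congr 1
        ring
      rw [SetLike.mem_coe, h]
      exact hφ _ (Subgroup.subset_closure (Or.inr ⟨a, rfl⟩)) _
        (Subgroup.subset_closure (Or.inr ⟨a, rfl⟩))
  have : Finite G1 := f1
  have : Finite G2 := f2
  have : Finite φ.range := Finite.of_surjective φ.rangeRestrict φ.rangeRestrict_surjective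
  exact Finite.of_injective (Subgroup.inclusion hle) (Subgroup.inclusion_injective hle)

end Pool.Agent.Helper70.OD
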